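import Pool.Agent.Y395.SP.Stm2
import Pool.Agent.Y395.SP.Fin

/-!
Project SP part 2 (helper395), job EXC: few request sequences are exceptional.
-/

set_option autoImplicit false

namespace Pool.Agent.Y756.SP

open Pool.Agent.H581R2.Splay Pool.Agent.TH49.Spl Pool.Agent.Y395.SP

theorem main (hU : SUpper) (hC : SCount) : SExc := by
  classical
  intro T hT hT0 m ε hε hε1 hnm
  obtain ⟨n, hn⟩ : ∃ n : ℕ, n = (keys T).length := ⟨_, rfl⟩
  have hn1 : 1 ≤ n := by
    rw [hn]
    cases T with
    | nil => exact absurd rfl hT0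
    | node a l r =>
      simp [keys]
      omega
  rw [← hn] at hnm ⊢
  have hn1' : (1 : ℝ) ≤ n := by exact_mod_cast hn1
  have hnm' : (n : ℝ) ≤ m := by exact_mod_cast hnm
  have hm1 : (1 : ℝ) ≤ m := hn1'.trans hnm'
  obtain ⟨l, hl⟩ : ∃ l : ℝ, l = Real.logb 2 n := ⟨_, rfl⟩
  have hl0 : 0 ≤ l := by
    rw [hl]
    exact Real.logb_nonneg (by norm_num) hn1'
  obtain ⟨L, hL⟩ : ∃ L : ℝ, L = 1 + l := ⟨_, rfl⟩
  have hL1 : 1 ≤ L := by linarith
  have h2n : Real.logb 2 (2 * (n : ℝ)) = L := by
    rw [Real.logb_mul (by norm_num) (by positivity), Real.logb_self_eq_one (by norm_num), hL, hl]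
  have hpow : (2 * (n : ℝ)) ^ (ε * m) = (2 : ℝ) ^ (L * (ε * m)) := by
    rw [Real.rpow_mul (by norm_num : (0 : ℝ) ≤ 2) L, ← h2n, Real.rpow_logb (by norm_num)
      (by norm_num) (by positivity)]
  -- the bad sequences have small optimum
  have hbad : ∀ X : Fin m → ℕ, X ∈ seqs (keys T).toFinset m →
      280 / ε * (optAny (keys T) (List.ofFn X) : ℝ) < costSplay T (List.ofFn X) →
      (optAny (keys T) (List.ofFn X) : ℝ) ≤ m * L * ε / 20 ∧ 20 < ε * L := by
    intro X hX hb
    have hmem : ∀ x ∈ List.ofFn X, x ∈ keys T := by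
      intro x hx
      rw [List.mem_ofFn] at hx
      obtain ⟨i, rfl⟩ := hx
      have h1 := Fintype.mem_piFinset.1 hX i
      exact List.mem_toFinset.1 h1
    have hcard : (List.ofFn X).toFinset.card ≤ n := by
      have h1 : (List.ofFn X).toFinset ⊆ (keys T).toFinset := by
        intro x hx
        rw [List.mem_toFinset] at hx ⊢
        exact hmem x hx
      have h2 := Finset.card_le_card h1
      have h3 := List.toFinset_card_le (keys T)
      omega
    have h1 := hU T (List.ofFn X) n hT hT0 hmem hcard hn1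
    rw [List.length_ofFn, ← hn, ← hl] at h1
    have h2 : (costSplay T (List.ofFn X) : ℝ) ≤ 14 * (m * L) := by
      have h3 : (n : ℝ) * l ≤ m * l := mul_le_mul_of_nonneg_right hnm' hl0
      rw [hL]
      nlinarith
    have h4 : (m : ℝ) ≤ optAny (keys T) (List.ofFn X) := by
      have h5 := len_optAny (T := T) (List.ofFn X)
      rw [List.length_ofFn] at h5
      exact_mod_cast h5
    have h6 : 280 * (optAny (keys T) (List.ofFn X) : ℝ) < ε * (14 * (m * L)) := by
      have h7 := hb.trans_le h2
      rw [div_mul_eq_mul_div, div_lt_iff₀ hε] at h7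
      linarith
    refine ⟨by linarith, ?_⟩
    by_contra hcon
    push Not at hcon
    have h8 : m * (ε * L) ≤ m * 20 := mul_le_mul_of_nonneg_left hcon (by linarith)
    nlinarith
  by_cases hεL : 20 < ε * L
  · have h1 := hC T hT m (m * L * ε / 20)
    rw [← hn] at h1
    have h2 : (((seqs (keys T).toFinset m).filter (fun X =>
        280 / ε * (optAny (keys T) (List.ofFn X) : ℝ) < costSplay T (List.ofFn X))).card : ℝ) ≤
        (((seqs (keys T).toFinset m).filter (fun X =>
          (optAny (keys T) (List.ofFn X) : ℝ) ≤ m * L * ε / 20)).card : ℝ) := by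
      have h3 : ((seqs (keys T).toFinset m).filter (fun X =>
          280 / ε * (optAny (keys T) (List.ofFn X) : ℝ) < costSplay T (List.ofFn X))) ⊆
          ((seqs (keys T).toFinset m).filter (fun X =>
          (optAny (keys T) (List.ofFn X) : ℝ) ≤ m * L * ε / 20)) := by
        intro X hX
        rw [Finset.mem_filter] at hX ⊢
        exact ⟨hX.1, (hbad X hX.1 hX.2).1⟩
      exact_mod_cast Finset.card_le_card h3
    refine h2.trans (h1.trans ?_)
    rw [hpow]
    apply Real.rpow_le_rpow_of_exponent_le (by norm_num)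
    have h4 : 20 * (m : ℝ) ≤ ε * L * m := mul_le_mul_of_nonneg_right hεL.le (by linarith)
    nlinarith
  · have h1 : ((seqs (keys T).toFinset m).filter (fun X =>
        280 / ε * (optAny (keys T) (List.ofFn X) : ℝ) < costSplay T (List.ofFn X))) = ∅ := by
      rw [Finset.filter_eq_empty_iff]
      intro X hX hb
      exact hεL (hbad X hX hb).2
    have h2 : (0 : ℝ) ≤ (2 * (n : ℝ)) ^ (ε * m) := by positivity
    convert h2 using 1
    rw [Nat.cast_eq_zero, Finset.card_eq_zero]
    convert h1 using 1

end Pool.Agent.Y756.SP
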